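import Pool.Agent.W2helper41.N.Num
import Pool.Agent.W2helper41.M.Omg

/-!
# The Birch and Swinnerton-Dyer rank conjecture for `X_0(14)` over all the number fields in infinite
# abelian extensions of `ℚ` attached to half of the products of inert primes and one or two split primes

`E` is the modular curve `X_0(14)`, `y² + xy + y = x³ + 4x - 6`, a curve without complex
multiplication, and `E_D` its quadratic twist by `D`.  A prime is inert if it is `5` modulo `8` and not a
square modulo `7` (the inert primes are one eighth of all the primes), and split if it is `1` modulo `8`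
and a square modulo `7`.  For a product `D` of distinct inert and split primes let

  `Ω_D = ℚ(√D; √q : q inert and a square modulo the split prime factors of D; ζ + ζ⁻¹)`,

`ζ` over the roots of unity of order a power of three; the last numbers generate the cyclotomic
`ℤ₃`-extension of `ℚ`.  `Ω_D` is an infinite abelian extension of `ℚ`; `Ω_1` contains the square roots of
all the inert primes.  We say that `D` is good if `E_D(ℚ)` has rank zero, `Ш(E_D/ℚ)` has no element
of order two, and for EVERY number field `F` contained in `Ω_D` the `L`-function of `E` over `F` is entire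
and does not vanish at `s = 1`, and `E(F)` has rank zero.

* Every product `D` of inert primes is good.
* If `D` has one or two split prime factors, and these are `2`, `4`, `5` or `7` modulo `9`, then `D` is good
  if and only if `E_D(ℚ)` has rank zero and `Ш(E_D/ℚ)` has no element of order two.
* This is so for exactly half of the `D` with one (two) split prime factors from a set `S` and any number of
  inert prime factors from `S`, ordered by size.  `S` can be the set of all the inert primes and of the split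
  primes that are `2`, `4`, `5` or `7` modulo `9`; then the number of these `D` up to `X` has the order of
  magnitude `X (log X)^(-7/8) (log log X)^k`, `k` the number of the split prime factors.

The proof.  Let `χ` be the product of a character `ψ ≠ 1` of `Gal(K/ℚ)`, `K` a layer of the
`ℤ₃`-extension, and the quadratic character of a product `d` of the elements whose roots generate `F`, and
`t` the number of the inert primes dividing `d` at which `ψ` is trivial.  The twisted sum of the modular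
symbols that gives `L(E, χ, 1)` is `2^t` times a number that is a unit at all the places above two
(modules `W2helper41.L`); for `ψ = 1` the value is computed modulo the next power of two as well.  On the
algebraic side the places of odd degree above the inert primes impose no condition in the descent with the
isogenies of degree two.  Both need the nonsingularity of one matrix of residue symbols for `D`, which is
equivalent to the condition on `E_D(ℚ)` and `Ш(E_D/ℚ)`, and is equidistributed (large sieve, library).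
-/

set_option autoImplicit false

open NumberField IsDedekindDomain WeierstrassCurve Filter Topology Finset

namespace Pool.Agent.Results.MP_ae0bd0_nt.InfiniteExtensionsForHalf

open scoped Classical

open Pool.Agent.TH841.NF.D (Sha)

/-- The elliptic curve `X_0(14)`, with its global minimal equation
`y² + x y + y = x³ + 4 x - 6`. -/
def E : WeierstrassCurve ℤ := ⟨1, 0, 1, 4, -6⟩

/-- The quadratic twist `E_D` of `X_0(14)` (`D = 1` modulo `4`), with its global minimal equation
`y² + x y + y = x³ + ((D - 1)/4) x² + ((9 D² - 1)/2) x - (23 D³ + 1)/4`.  It is isomorphic to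
`Y² = X (X² + 13 D X + 128 D²)` by `X = 4 (x - D)`, `Y = 4 (2 y + x + 1)`. -/
def twist (D : ℤ) : WeierstrassCurve ℤ :=
  ⟨1, (D - 1) / 4, 1, (9 * D ^ 2 - 1) / 2, -((23 * D ^ 3 + 1) / 4)⟩

/-- The curve given by the equation of `W` over the ring `R`. -/
abbrev base (W : WeierstrassCurve ℤ) (R : Type) [CommRing R] : WeierstrassCurve R :=
  W.map (Int.castRingHom R)

/-- The number of the affine points `(x, y)` over the ring `R`. -/
noncomputable def pts (W : WeierstrassCurve ℤ) (R : Type) [CommRing R] : ℕ :=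
  Nat.card {P : R × R // (base W R).toAffine.Equation P.1 P.2}

section

variable {K : Type} [Field K] [NumberField K]

/-- `a_v = N v + 1 - #W(k_v)`, the points over the residue field `k_v` counted with the point at
infinity. -/
noncomputable def a (W : WeierstrassCurve ℤ) (v : HeightOneSpectrum (𝓞 K)) : ℤ :=
  (Ideal.absNorm v.asIdeal : ℤ) - pts W (𝓞 K ⧸ v.asIdeal)

/-- The Euler factor of `L(W/K, s)` at `v` : `(1 - a_v N v^(-s) + N v^(1 - 2 s))⁻¹` if the
discriminant is a unit at `v`, and `(1 - a_v N v^(-s))⁻¹` otherwise. -/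
noncomputable def factor (W : WeierstrassCurve ℤ) (s : ℂ) (v : HeightOneSpectrum (𝓞 K)) : ℂ :=
  (1 - (a W v : ℂ) * (Ideal.absNorm v.asIdeal : ℂ) ^ (-s) +
    if ((W.Δ : ℤ) : 𝓞 K) ∈ v.asIdeal then 0 else (Ideal.absNorm v.asIdeal : ℂ) ^ (1 - 2 * s))⁻¹

/-- The equation is minimal at the finite place `v` of `K`: no change of variables over `K` that
keeps the coefficients integral at `v` decreases the valuation of the discriminant. -/
def MinimalAt (W : WeierstrassCurve ℤ) (v : HeightOneSpectrum (𝓞 K)) : Prop :=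
  ∀ C : VariableChange K, v.valuation K (C • base W K).a₁ ≤ 1 →
    v.valuation K (C • base W K).a₂ ≤ 1 → v.valuation K (C • base W K).a₃ ≤ 1 →
    v.valuation K (C • base W K).a₄ ≤ 1 → v.valuation K (C • base W K).a₆ ≤ 1 →
    v.valuation K (C • base W K).Δ ≤ v.valuation K (base W K).Δ

end

section

variable (K : Type) [Field K] [NumberField K]

/-- The rank of the group of the points over `K`. -/
noncomputable def rank (W : WeierstrassCurve ℤ) : ℕ := Module.finrank ℤ (base W K).toAffine.Point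

/-- The rank is zero and the Tate-Shafarevich group over `K` has no element of order two. -/
def RankShaTrivial (W : WeierstrassCurve ℤ) : Prop :=
  rank K W = 0 ∧ ∀ x : Sha (base W K), 2 • x = 0 → x = 0

/-- The equation is minimal over `K`, there is an entire function equal to `L(W/K, s)` for
`Re s > 3 / 2`, and its value at `1` is not zero. -/
def AnalyticRankZero (W : WeierstrassCurve ℤ) : Prop :=
  (∀ v : HeightOneSpectrum (𝓞 K), MinimalAt W v) ∧
  ∃ L : ℂ → ℂ, Differentiable ℂ L ∧
    (∀ s : ℂ, 3 / 2 < s.re → HasProd (factor (K := K) W s) (L s)) ∧ L 1 ≠ 0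

end

/-- The inert primes. -/
def Inert (q : ℕ) : Prop := q.Prime ∧ q % 8 = 5 ∧ (q % 7 = 3 ∨ q % 7 = 5 ∨ q % 7 = 6)

/-- The split primes. -/
def Split (p : ℕ) : Prop := p.Prime ∧ p % 8 = 1 ∧ (p % 7 = 1 ∨ p % 7 = 2 ∨ p % 7 = 4)

/-- The field `Ω_D`, the subfield of `ℂ` generated by the square roots of `D`, by the square roots of
all the inert primes that are squares modulo all the split prime factors of `D`, and by the numbers
`ζ + ζ⁻¹`, `ζ` a root of unity of order a power of three (the latter generate the cyclotomic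
`ℤ₃`-extension of `ℚ`). -/
noncomputable def Omega (D : ℕ) : IntermediateField ℚ ℂ :=
  IntermediateField.adjoin ℚ ({z : ℂ | z ^ 2 = (D : ℂ)} ∪
    ({z : ℂ | ∃ q : ℕ, Inert q ∧ (∀ p : ℕ, Split p → p ∣ D → IsSquare ((q : ℕ) : ZMod p)) ∧
      z ^ 2 = (q : ℂ)} ∪
    {z : ℂ | ∃ (n : ℕ) (ζ : ℂ), ζ ^ 3 ^ n = 1 ∧ z = ζ + ζ⁻¹}))

/-- The rank of `E_D(ℚ)` is zero, `Ш(E_D/ℚ)` has no element of order two, and for EVERY number field `F`
contained in `Ω_D` the `L`-function of `E` over `F` is entire and does not vanish at `1`, and the rank of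
`E(F)` is zero. -/
def Good (D : ℕ) : Prop :=
  RankShaTrivial ℚ (twist D) ∧
  ∀ (F : IntermediateField ℚ ℂ) [NumberField F], F ≤ Omega D → AnalyticRankZero F E ∧ rank F E = 0

/-- `D` is squarefree, all its prime factors are in `S` and split or inert, and exactly `k` of them are
split. -/
def Family (S : Set ℕ) (k D : ℕ) : Prop :=
  Squarefree D ∧ (∀ p : ℕ, p.Prime → p ∣ D → p ∈ S ∧ (Split p ∨ Inert p)) ∧
    (D.primeFactors.filter fun p => p % 8 = 1).card = k

/-- at least a positive proportion of the primes up to `Y` is in `S` and of the kind `Q`, for all large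
`Y` -/
def Dense (S : Set ℕ) (Q : ℕ → Prop) : Prop := ∃ (δ : ℝ) (Y₀ : ℕ), 0 < δ ∧ ∀ Y : ℕ, Y₀ ≤ Y →
  δ * (Y / Real.log Y) ≤ (Nat.card {p : ℕ // p ≤ Y ∧ p ∈ S ∧ Q p} : ℝ)

/-- `S` has positive lower densities among the split and among the inert primes, and the sum of the
inverses of the inert primes of `S` up to `y` is `δ log log y` up to a bounded error. -/
def Regular (S : Set ℕ) (δ : ℝ) : Prop :=
  0 < δ ∧ δ ≤ 1 ∧ Dense S Split ∧ Dense S Inert ∧ ∃ C : ℝ, ∀ y : ℕ, 3 ≤ y →
    |∑ p ∈ (range (y + 1)).filter (fun p => p ∈ S ∧ Inert p), (1 : ℝ) / p -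
      δ * Real.log (Real.log y)| ≤ C

/-- the number of the `D` with `1 ≤ D ≤ X` and `Q D` -/
noncomputable def count (Q : ℕ → Prop) (X : ℕ) : ℕ := Nat.card {D : ℕ // 1 ≤ D ∧ D ≤ X ∧ Q D}

open Pool.Agent.W2helper41.N (FamN Rg IA SA cf)

lemma count_eq (Q : ℕ → Prop) [DecidablePred Q] (X : ℕ) : count Q X = ((Icc 1 X).filter Q).card := by
  unfold count
  rw [← Fintype.card_coe, ← Nat.card_eq_fintype_card]
  refine Nat.card_congr (Equiv.subtypeEquivRight fun p => ?_)
  rw [Finset.mem_filter, Finset.mem_Icc, and_assoc]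

lemma card_le (S : Set ℕ) (Q : ℕ → Prop) {R : ℕ → Prop} (h : ∀ p, (p ∈ S ∧ Q p) ↔ R p) (Y : ℕ) :
    Nat.card {p : ℕ // p ≤ Y ∧ p ∈ S ∧ Q p} = ((range (Y + 1)).filter R).card := by
  rw [← Fintype.card_coe, ← Nat.card_eq_fintype_card]
  refine Nat.card_congr (Equiv.subtypeEquivRight fun p => ?_)
  rw [Finset.mem_filter, Finset.mem_range, Nat.lt_succ_iff, h]

open Pool.Agent.V11291.FK (Dn) in
lemma dense_iff (S : Set ℕ) (Q : ℕ → Prop) {R : ℕ → Prop} (h : ∀ p, (p ∈ S ∧ Q p) ↔ R p) :
    Dense S Q ↔ Dn R := by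
  unfold Dense Dn
  refine exists_congr fun δ => exists_congr fun Y₀ => and_congr_right fun _ =>
    forall_congr' fun Y => imp_congr_right fun _ => ?_
  rw [card_le S Q h Y]

lemma reg_iff (S : Set ℕ) (δ : ℝ) : Regular S δ ↔ Rg (fun p => p ∈ S) δ := by
  have h1 : Dense S Split ↔ Pool.Agent.V11291.FK.Dn (SA fun p => p ∈ S) :=
    dense_iff S Split fun p => Iff.rfl
  have h2 : Dense S Inert ↔ Pool.Agent.V11291.FK.Dn (IA fun p => p ∈ S) :=
    dense_iff S Inert fun p => Iff.rfl
  have h3 : ∀ y : ℕ, ∑ p ∈ (range (y + 1)).filter (fun p => p ∈ S ∧ Inert p), (1 : ℝ) / p =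
      ∑ p ∈ (range (y + 1)).filter (fun p => p.Prime ∧ IA (fun p => p ∈ S) p), (1 : ℝ) / p := by
    intro y
    refine Finset.sum_congr ?_ fun _ _ => rfl
    refine Finset.filter_congr fun p _ => ?_
    exact ⟨fun h => ⟨h.2.1, h⟩, fun h => h.2⟩
  constructor
  · rintro ⟨a1, a2, a3, a4, C, a5⟩
    exact ⟨a1, a2, h1.1 a3, h2.1 a4, C, fun y hy => by rw [← h3]; exact a5 y hy⟩
  · rintro ⟨a1, a2, a3, a4, C, a5⟩
    exact ⟨a1, a2, h1.2 a3, h2.2 a4, C, fun y hy => by rw [h3]; exact a5 y hy⟩

lemma fam_iff (S : Set ℕ) (k D : ℕ) : Family S k D ↔ FamN (fun p => p ∈ S) k D := by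
  unfold Family FamN
  constructor
  · rintro ⟨h1, h2, h3⟩
    exact ⟨h1, fun p hp => h2 p (Nat.prime_of_mem_primeFactors hp)
      (Nat.dvd_of_mem_primeFactors hp), h3⟩
  · rintro ⟨h1, h2, h3⟩
    exact ⟨h1, fun p hp hd => h2 p (Nat.mem_primeFactors.2 ⟨hp, hd, h1.ne_zero⟩), h3⟩

lemma crit {T P : Finset ℕ} (hT : ∀ q ∈ T, Inert q) (hP : ∀ p ∈ P, Split p) :
    RankShaTrivial ℚ (twist (((∏ q ∈ T, q) * ∏ p ∈ P, p : ℕ) : ℤ)) ↔
      (Pool.Agent.W2helper41.X.mat P (∏ q ∈ T, q)).det ≠ 0 :=
  (Pool.Agent.W2helper41.X.crit hP hT).symm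

/-- the families and the sets of primes -/
lemma fam_prod {S : Set ℕ} {k D : ℕ} (hD : Family S k D) :
    (∀ q ∈ Pool.Agent.W2helper41.Z.ins D, Inert q) ∧
    (∀ p ∈ Pool.Agent.W2helper41.Z.sps D, Split p) ∧
    D = (∏ q ∈ Pool.Agent.W2helper41.Z.ins D, q) * ∏ p ∈ Pool.Agent.W2helper41.Z.sps D, p ∧
    (Pool.Agent.W2helper41.Z.sps D).card = k := by
  have hk' := hD.2.2
  rw [fam_iff, Pool.Agent.W2helper41.N.famN_iff] at hD
  exact ⟨Pool.Agent.W2helper41.Z.ins_ine hD, Pool.Agent.W2helper41.Z.sps_spl hD,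
    Pool.Agent.W2helper41.Z.prod_eq hD, hk'⟩

/-- a set with the split primes of one and the inert primes of another regular set -/
lemma regular_mix {S S₁ S₂ : Set ℕ} {δ₁ δ : ℝ} (h1 : Regular S₁ δ₁) (h2 : Regular S₂ δ)
    (e1 : ∀ p, Split p → (p ∈ S ↔ p ∈ S₁)) (e2 : ∀ p, Inert p → (p ∈ S ↔ p ∈ S₂)) :
    Regular S δ := by
  have eS : ∀ p : ℕ, (p ∈ S ∧ Split p) ↔ (p ∈ S₁ ∧ Split p) := fun p =>
    and_congr_left fun hp => e1 p hp
  have eI : ∀ p : ℕ, (p ∈ S ∧ Inert p) ↔ (p ∈ S₂ ∧ Inert p) := fun p =>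
    and_congr_left fun hp => e2 p hp
  obtain ⟨-, -, a3, -, -⟩ := h1
  obtain ⟨b1, b2, -, b4, C, b5⟩ := h2
  refine ⟨b1, b2, ?_, ?_, C, fun y hy => ?_⟩
  · rw [dense_iff _ _ (R := fun p => p ∈ S₁ ∧ Split p) eS]
    exact (dense_iff _ _ (R := fun p => p ∈ S₁ ∧ Split p) fun p => Iff.rfl).1 a3
  · rw [dense_iff _ _ (R := fun p => p ∈ S₂ ∧ Inert p) eI]
    exact (dense_iff _ _ (R := fun p => p ∈ S₂ ∧ Inert p) fun p => Iff.rfl).1 b4
  · have h3 : (range (y + 1)).filter (fun p => p ∈ S ∧ Inert p) =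
        (range (y + 1)).filter (fun p => p ∈ S₂ ∧ Inert p) :=
      Finset.filter_congr fun p _ => eI p
    rw [h3]
    exact b5 y hy

lemma E_disc : E.Δ = -21952 := by
  unfold E WeierstrassCurve.Δ WeierstrassCurve.b₂ WeierstrassCurve.b₄ WeierstrassCurve.b₆
    WeierstrassCurve.b₈
  norm_num

lemma disc_mem {K : Type} [Field K] [NumberField K] (v : HeightOneSpectrum (𝓞 K)) :
    ((E.Δ : ℤ) : 𝓞 K) ∈ v.asIdeal ↔ ((14 : ℤ) : 𝓞 K) ∈ v.asIdeal := by
  have h2 : ((E.Δ : ℤ) : 𝓞 K) = -(((14 : ℤ) : 𝓞 K) ^ 3 * 8) := by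
    rw [E_disc]; push_cast; norm_num
  have h3 : ((14 : ℤ) : 𝓞 K) = 2 * 7 := by push_cast; norm_num
  rw [h2, neg_mem_iff]
  constructor
  · intro h
    rcases v.isPrime.mem_or_mem h with h | h
    · exact v.isPrime.mem_of_pow_mem 3 h
    · rw [show (8 : 𝓞 K) = 2 ^ 3 by norm_num] at h
      rw [h3]
      exact Ideal.mul_mem_right _ _ (v.isPrime.mem_of_pow_mem 3 h)
  · intro h
    exact Ideal.mul_mem_right _ _ (Ideal.pow_mem_of_mem _ h 3 (by norm_num))

lemma factor_eq {K : Type} [Field K] [NumberField K] (s : ℂ) :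
    factor (K := K) E s = Pool.Agent.Y682.XT.fE (K := K) s := by
  funext v
  have h1 : a E v = Pool.Agent.Y682.XT.av v := rfl
  unfold factor Pool.Agent.Y682.XT.fE
  rw [h1]
  simp only [disc_mem]

lemma rank_eq (F : Type) [Field F] [NumberField F] : rank F E = Pool.Agent.Y682.XD.RR F 1 := by
  rw [← Pool.Agent.Y682.XD.rank_E F]
  rfl

lemma WM_one : Pool.Agent.Y700.WM 1 = E := by
  unfold Pool.Agent.Y700.WM E
  norm_num

lemma minimal (F : Type) [Field F] [NumberField F] (v : HeightOneSpectrum (𝓞 F)) :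
    MinimalAt E v := by
  have h1 := Pool.Agent.W2helper41.X.parts.mind 1 squarefree_one rfl (Nat.coprime_one_left 14) F
    (fun p hp h => by
      exfalso
      have h3 : (p : ℤ) ≤ 1 := Int.le_of_dvd one_pos h
      have := hp.two_le
      omega) v
  rw [WM_one] at h1
  exact h1

lemma concl {F : Type} [Field F] [NumberField F] (h : ∃ G : ℂ → ℂ, Differentiable ℂ G ∧
    (∀ z : ℂ, 3 / 2 < z.re → HasProd (Pool.Agent.Y682.XT.fE (K := F) z) (G z)) ∧ G 1 ≠ 0 ∧
      Pool.Agent.Y682.XD.RR F 1 = 0) : AnalyticRankZero F E ∧ rank F E = 0 := by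
  obtain ⟨G, h1, h2, h3, h4⟩ := h
  refine ⟨⟨fun v => minimal F v, G, h1, fun s hs => ?_, h3⟩, ?_⟩
  · rw [factor_eq]; exact h2 s hs
  · rw [rank_eq, h4]

lemma good_of {k D : ℕ} (hD : Family Set.univ k D) (hk : k ≤ 2)
    (h9 : ∀ p : ℕ, Split p → p ∣ D → p % 9 = 2 ∨ p % 9 = 4 ∨ p % 9 = 5 ∨ p % 9 = 7)
    (hdet : (Pool.Agent.W2helper41.X.mat (Pool.Agent.W2helper41.Z.sps D)
      (∏ q ∈ Pool.Agent.W2helper41.Z.ins D, q)).det ≠ 0) : Good D := by
  obtain ⟨hT, hP, e, hc⟩ := fam_prod hD
  have hcr := crit hT hP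
  rw [← e] at hcr
  have hdiv : ∀ p ∈ Pool.Agent.W2helper41.Z.sps D, p ∣ D := by
    intro p hp
    rw [e]
    exact Dvd.dvd.mul_left (dvd_prod_of_mem _ hp) _
  refine ⟨hcr.2 hdet, fun F _ hF => concl (Pool.Agent.W2helper41.M.omega_main hT hP
    (by rw [hc]; exact hk) hdet (fun p hp => h9 p (hP p hp) (hdiv p hp)) F (hF.trans ?_))⟩
  rw [← e]
  refine IntermediateField.adjoin.mono ℚ _ _ ?_
  refine Set.union_subset_union_right _ (Set.union_subset_union_left _ ?_)
  rintro z ⟨q, hq, hsq, hz⟩
  exact ⟨q, hq, fun p hp => hsq p (hP p hp) (hdiv p hp), hz⟩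

/-- **Main theorem.**

(1) Let `D` be a squarefree number all of whose prime factors are inert or split, at most two of them
split, and these `2`, `4`, `5` or `7` modulo `9`.  Then `D` is good if and only if `E_D(ℚ)` has rank zero
and `Ш(E_D/ℚ)` has no element of order two.

(2) If `D` has no split prime factor, then `D` is good.

(3) Let `S` be a regular set of primes with the density `δ` of the inert primes, whose split primes are
`2`, `4`, `5` or `7` modulo `9`, and let `k = 1` or `k = 2`.  The number of the elements up to `X` of the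
family of `S, k` is between two positive constants times `X (log X)^(δ - 1) (log log X)^k`, and the
proportion of the good ones tends to `1/2`.

(4) The set of all the inert primes and of the split primes that are `2`, `4`, `5` or `7` modulo `9` is
regular with the density `1/8`. -/
theorem result :
    (∀ k D : ℕ, Family Set.univ k D → k ≤ 2 →
      (∀ p : ℕ, Split p → p ∣ D → p % 9 = 2 ∨ p % 9 = 4 ∨ p % 9 = 5 ∨ p % 9 = 7) →
      (Good D ↔ RankShaTrivial ℚ (twist D))) ∧
    (∀ D : ℕ, Family Set.univ 0 D → Good D) ∧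
    (∀ (S : Set ℕ) (δ : ℝ), Regular S δ →
      (∀ p ∈ S, Split p → p % 9 = 2 ∨ p % 9 = 4 ∨ p % 9 = 5 ∨ p % 9 = 7) →
      ∀ k : ℕ, k = 1 ∨ k = 2 →
      (∃ (c C : ℝ) (X₀ : ℕ), 0 < c ∧ 0 < C ∧ ∀ X : ℕ, X₀ ≤ X →
        c * (X * Real.log X ^ (δ - 1) * Real.log (Real.log X) ^ k) ≤
          (count (Family S k) X : ℝ) ∧
        (count (Family S k) X : ℝ) ≤
          C * (X * Real.log X ^ (δ - 1) * Real.log (Real.log X) ^ k)) ∧
      Tendsto (fun X : ℕ =>
        (count (fun D => Family S k D ∧ Good D) X : ℝ) / (count (Family S k) X : ℝ)) atTop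
        (𝓝 (1 / 2))) ∧
    Regular {p | Inert p ∨ p % 9 = 2 ∨ p % 9 = 4 ∨ p % 9 = 5 ∨ p % 9 = 7} (1 / 8) := by
  refine ⟨?_, ?_, ?_, ?_⟩
  · intro k D hD hk h9
    refine ⟨fun h => h.1, fun h => good_of hD hk h9 ?_⟩
    obtain ⟨hT, hP, e, hc⟩ := fam_prod hD
    have hcr := crit hT hP
    rw [← e] at hcr
    exact hcr.1 h
  · intro D hD
    obtain ⟨hT, hP, e, hc⟩ := fam_prod hD
    have h0 : Pool.Agent.W2helper41.Z.sps D = ∅ := card_eq_zero.1 hc
    refine good_of hD (Nat.zero_le 2) (fun p hp hpD => ?_) ?_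
    · exfalso
      have h1 : p ∈ Pool.Agent.W2helper41.Z.sps D :=
        mem_filter.2 ⟨Nat.mem_primeFactors.2 ⟨hp.1, hpD, hD.1.ne_zero⟩, hp.2.1⟩
      rw [h0] at h1
      exact notMem_empty _ h1
    · rw [h0, Matrix.det_isEmpty]
      exact one_ne_zero
  · intro S δ hS h9 k hk12
    have hk : 0 < k := by omega
    have hk2 : k ≤ 2 := by omega
    rw [reg_iff] at hS
    have e1 : ∀ X : ℕ, count (Family S k) X =
        ((Icc 1 X).filter fun D => FamN (fun p => p ∈ S) k D).card := by
      intro X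
      rw [count_eq]
      exact cf fun D _ => fam_iff S k D
    have key : ∀ D : ℕ, Family S k D → (Good D ↔ (Pool.Agent.W2helper41.X.mat
        (Pool.Agent.W2helper41.Z.sps D) (∏ q ∈ Pool.Agent.W2helper41.Z.ins D, q)).det ≠ 0) := by
      intro D hD
      have hDu : Family Set.univ k D := ⟨hD.1, fun p hp hpD =>
        ⟨Set.mem_univ p, (hD.2.1 p hp hpD).2⟩, hD.2.2⟩
      obtain ⟨hT, hP, e, hc⟩ := fam_prod hD
      have hcr := crit hT hP
      rw [← e] at hcr
      refine ⟨fun h => hcr.1 h.1, fun h => good_of hDu hk2 (fun p hp hpD => ?_) h⟩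
      exact h9 p (hD.2.1 p hp.1 hpD).1 hp
    have hlaw := Pool.Agent.W2helper41.N.lawN hS hk
    have hlim : ∏ i ∈ range ((k + 1) / 2), (1 - (1 / 2 : ℝ) ^ (2 * i + 1)) = 1 / 2 := by
      have h2 : (k + 1) / 2 = 1 := by omega
      rw [h2, Finset.prod_range_one]
      norm_num
    rw [hlim] at hlaw
    refine ⟨?_, ?_⟩
    · obtain ⟨c, C, X₀, hc, hC, h⟩ := Pool.Agent.W2helper41.N.sizeN hS k
      refine ⟨c, C, X₀, hc, hC, fun X hX => ?_⟩
      rw [e1]
      exact h X hX
    · refine hlaw.congr fun X => ?_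
      rw [e1, count_eq]
      refine congrArg (fun n : ℕ => (n : ℝ) / _) (cf fun D _ => ?_)
      rw [← fam_iff]
      exact and_congr_right fun hF => (key D hF).symm
  · have h1 : Regular {p | p % 9 ∈ ({2, 4, 5, 7} : Finset ℕ)}
        (({2, 4, 5, 7} : Finset ℕ).card / (8 * (9 : ℕ).totient)) := by
      rw [reg_iff]
      exact Pool.Agent.W2helper41.N.rg_class (N := 9) (R := {2, 4, 5, 7}) (by norm_num)
        ⟨2, by decide⟩ (by decide)
    have h2 : Regular {p | p % 1 ∈ ({0} : Finset ℕ)} (({0} : Finset ℕ).card /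
        (8 * Nat.totient 1)) := by
      rw [reg_iff]
      exact Pool.Agent.W2helper41.N.rg_class (Nat.coprime_one_left 14) (singleton_nonempty 0)
        (by
          intro a ha
          rw [mem_singleton] at ha
          rw [ha]
          exact ⟨one_pos, Nat.coprime_one_right 0⟩)
    have e8 : ((({0} : Finset ℕ).card : ℝ) / (8 * (Nat.totient 1 : ℝ))) = 1 / 8 := by
      rw [card_singleton, Nat.totient_one]
      norm_num
    rw [e8] at h2
    refine regular_mix h1 h2 (fun p hp => ⟨fun h => ?_, fun h => Or.inr ?_⟩)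
      (fun p hp => ⟨fun _ => ?_, fun _ => Or.inl hp⟩)
    · rcases h with h | h
      · have h3 := h.2.1
        have h4 := hp.2.1
        omega
      · show p % 9 ∈ ({2, 4, 5, 7} : Finset ℕ)
        simp only [mem_insert, mem_singleton]
        exact h
    · have h3 : p % 9 ∈ ({2, 4, 5, 7} : Finset ℕ) := h
      simp only [mem_insert, mem_singleton] at h3
      exact h3
    · show p % 1 ∈ ({0} : Finset ℕ)
      rw [Nat.mod_one]
      exact mem_singleton_self 0

end Pool.Agent.Results.MP_ae0bd0_nt.InfiniteExtensionsForHalf
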