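import Pool.Agent.W2helper24.TQ.Fin
import Pool.Agent.W2helper24.TQ.All3

/-!
# The Birch and Swinnerton-Dyer rank conjecture for `y² = x³ - 1` over all the number fields contained in
# an infinite extension of `ℚ` that contains cube roots

`E : y² = x³ - 1` (conductor `144`).  A number `D > 0` is in the class if its prime factors are `7` modulo
`12`, it is not divisible by the cube of a prime, and `D` is `1` or `-1` modulo `9`.  Let `Ω` be the subfield
of `ℂ` generated by `√-3`, by the cube roots of ALL the numbers of the class, and by all the numbers of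
degree `3^n` over `ℚ` that are contained in the cyclotomic fields `ℚ(ζ_m)`, where all the prime factors
of `m` are `7` modulo `12`.  We prove: for EVERY number field `k` contained in `Ω`, `L(E/k, s)` continues to
a function that is meromorphic on `ℂ`, analytic at `1` and not zero there, and `E(k)` has rank zero.

Among these fields are all the pure cubic fields `ℚ(∛D)` with `D` in the class and their composites with all
the abelian fields of `3`-power degree whose conductor is composed of primes that are `7` modulo `12`;
`Ω` is an infinite extension of `ℚ` that is not abelian over `ℚ`, and abelian over `K = ℚ(√-3)`.  The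
theorem `abelian_extensions` below is for all the abelian extensions `F/K` of degree `3^n` with an Artin map whose modulus is
composed of primes `v`, prime to `6`, such that `-1` is not a square modulo `v`, and for the fields `k` with
`k(√-3) = F`.  The algebraic part, that `E` has rank zero, is proved in `galois_extensions` for ALL the Galois extensions `F/K` of
degree `3^n`, abelian or not, that are ramified only at such primes, and for all the subfields of `F`.

The proof.  Analytic side: `L(E/F, s)` is a product of Hecke `L`-functions `L(ψ χ, s)`, `ψ` the Hecke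
character of `E`, of conductor `4 √-3`, and `χ` the characters of `Gal(F/K)`.  `L(ψ χ, 1) / Ω` is a sum of
values of elliptic functions at torsion points.  The translates of the points by the kernel of `√-3` are
grouped, and the sum is `√-3` times a sum over the points `P` in half of the torsion points of
`χ(P) (x(P) - 1) / (√-3 x(P))`, where the terms are integral at three; so modulo the primes above three it
does not depend on `χ`, and for `χ = 1` it is a unit.  The Euler factors at the ramified primes are units
because `-1` is not a square modulo these primes.  Algebraic side: the descent with the isogeny of degree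
three whose kernel is generated by `(0, i)`: the descent maps have values in the kernel of the norm from
`F(i)` to `F`, and a nontrivial element of the Selmer group over `F` would give (the `3`-group `Gal(F/K)`
has a fixed vector) a unit of `ℚ(ζ₁₂)` modulo cubes; the local condition at three excludes all of them.
-/

set_option autoImplicit false

open NumberField IsDedekindDomain WeierstrassCurve

namespace Pool.Agent.Results.MP_ae0bd0_nt.ThreePowerOmega

open scoped Classical

/-- The elliptic curve `y² = x³ - 1`. -/
def E : WeierstrassCurve ℤ := ⟨0, 0, 0, 0, -1⟩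

/-- The curve given by the equation of `W` over the ring `R`. -/
abbrev base (W : WeierstrassCurve ℤ) (R : Type) [CommRing R] : WeierstrassCurve R :=
  W.map (Int.castRingHom R)

/-- The number of the affine points `(x, y)` over the ring `R`. -/
noncomputable def pts (W : WeierstrassCurve ℤ) (R : Type) [CommRing R] : ℕ :=
  Nat.card {P : R × R // (base W R).toAffine.Equation P.1 P.2}

section

variable {k : Type} [Field k] [NumberField k]

/-- `a_v = N v + 1 - #W(k_v)`, the points over the residue field `k_v` counted with the point at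
infinity. -/
noncomputable def a (W : WeierstrassCurve ℤ) (v : HeightOneSpectrum (𝓞 k)) : ℤ :=
  (Ideal.absNorm v.asIdeal : ℤ) - pts W (𝓞 k ⧸ v.asIdeal)

/-- The Euler factor of `L(W/k, s)` at `v` : `(1 - a_v N v^(-s) + N v^(1 - 2 s))⁻¹` if the
discriminant is a unit at `v`, and `(1 - a_v N v^(-s))⁻¹` otherwise. -/
noncomputable def factor (W : WeierstrassCurve ℤ) (s : ℂ) (v : HeightOneSpectrum (𝓞 k)) : ℂ :=
  (1 - (a W v : ℂ) * (Ideal.absNorm v.asIdeal : ℂ) ^ (-s) +
    if ((W.Δ : ℤ) : 𝓞 k) ∈ v.asIdeal then 0 else (Ideal.absNorm v.asIdeal : ℂ) ^ (1 - 2 * s))⁻¹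

end

section

variable (k : Type) [Field k] [NumberField k]

/-- The rank of the group of the points over `k`. -/
noncomputable def rank (W : WeierstrassCurve ℤ) : ℕ := Module.finrank ℤ (base W k).toAffine.Point

/-- The equation of `W` is minimal at all the finite places of `k`, there is a function that is
meromorphic on `ℂ` and equal to `L(W/k, s)` for `Re s > 3 / 2`, and it is analytic at `1` and its value at
`1` is not zero. -/
def AnalyticRankZero (W : WeierstrassCurve ℤ) : Prop :=
  (∀ v : HeightOneSpectrum (𝓞 k),
    IsMinimal (v.adicCompletionIntegers k) ((base W k).baseChange (v.adicCompletion k))) ∧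
  ∃ L : ℂ → ℂ, MeromorphicOn L Set.univ ∧
    (∀ s : ℂ, 3 / 2 < s.re → HasProd (factor (k := k) W s) (L s)) ∧ AnalyticAt ℂ L 1 ∧ L 1 ≠ 0

end

/-- The number `D` is positive, not divisible by the cube of a prime, its prime factors are `7` modulo
`12`, and it is `1` or `-1` modulo `9`. -/
def Class (D : ℕ) : Prop :=
  0 < D ∧ (∀ p : ℕ, p.Prime → p ∣ D → p % 12 = 7 ∧ ¬ p ^ 3 ∣ D) ∧ (D % 9 = 1 ∨ D % 9 = 8)

/-- The prime factors of `m > 0` are `7` modulo `12`. -/
def Conductor (m : ℕ) : Prop := 0 < m ∧ ∀ q : ℕ, q.Prime → q ∣ m → q % 12 = 7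

/-- The field `Ω`, the subfield of `ℂ` generated by `√-3`, by all the cube roots of the numbers of the
class, and by all the numbers `z` of degree `3^n` over `ℚ`, for some `n`, that are contained in the
cyclotomic field of order `m` for some `m` whose prime factors are `7` modulo `12`. -/
noncomputable def Omega : IntermediateField ℚ ℂ :=
  IntermediateField.adjoin ℚ ({z : ℂ | z ^ 2 = -3} ∪
    ({z : ℂ | ∃ D : ℕ, Class D ∧ z ^ 3 = D} ∪
    {z : ℂ | (∃ n, (minpoly ℚ z).natDegree = 3 ^ n) ∧
      ∃ m, Conductor m ∧ z ∈ IntermediateField.adjoin ℚ {ζ : ℂ | ζ ^ m = 1}}))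

section

variable {K F : Type} [Field K] [NumberField K] [Field F] [NumberField F] [Algebra K F]

/-- `c` is not zero and prime to `6`, and `-1` is not a square modulo any prime `v` that divides `c`. -/
def GoodModulus (c : 𝓞 K) : Prop :=
  c ≠ 0 ∧ IsCoprime c 6 ∧ ∀ v : HeightOneSpectrum (𝓞 K), c ∈ v.asIdeal →
    ∀ x : 𝓞 K, x ^ 2 + 1 ∉ v.asIdeal

/-- `art` is the Artin map of the extension `F / K`, of modulus `c` (`𝓞 K` is a principal ideal domain):
it maps onto the Galois group, the extension is unramified at the primes of `F` that do not divide `c`, and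
the class of a prime element `π` is mapped to a Frobenius automorphism at every prime of `F` above `π`. -/
def IsArtinMap (c : 𝓞 K) (art : (𝓞 K ⧸ Ideal.span {c})ˣ →* Gal(F/K)) : Prop :=
  Function.Surjective art ∧
  (∀ v : HeightOneSpectrum (𝓞 F), algebraMap (𝓞 K) (𝓞 F) c ∉ v.asIdeal →
    Algebra.IsUnramifiedAt (𝓞 K) v.asIdeal) ∧
  ∀ π : 𝓞 K, Prime π → ∀ u : (𝓞 K ⧸ Ideal.span {c})ˣ,
    (u : 𝓞 K ⧸ Ideal.span {c}) = Ideal.Quotient.mk _ π →
    ∀ v : HeightOneSpectrum (𝓞 F), algebraMap (𝓞 K) (𝓞 F) π ∈ v.asIdeal →
      ∀ x : 𝓞 F, art u • x - x ^ Nat.card (𝓞 K ⧸ Ideal.span {π}) ∈ v.asIdeal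

variable (K F)

/-- The primes `w` of `F` at which `F / K` is ramified do not divide `3`, and `-1` is not a square modulo
the prime of `K` below `w` (so `w` does not divide `2`). -/
def GoodRamification : Prop :=
  ∀ w : HeightOneSpectrum (𝓞 F), ¬ Algebra.IsUnramifiedAt (𝓞 K) w.asIdeal →
    (3 : 𝓞 F) ∉ w.asIdeal ∧ ∀ x : 𝓞 K, algebraMap (𝓞 K) (𝓞 F) (x ^ 2 + 1) ∉ w.asIdeal

end

open Pool.Agent.W2helper24.TQ

lemma E_disc : E.Δ = -432 := by
  unfold E WeierstrassCurve.Δ WeierstrassCurve.b₂ WeierstrassCurve.b₄ WeierstrassCurve.b₆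
    WeierstrassCurve.b₈
  norm_num

lemma base_eq (R : Type) [CommRing R] : base E R = Em R := by
  unfold base E Em WeierstrassCurve.map
  ext <;> simp

lemma pts_eq (R : Type) [CommRing R] :
    pts E R = Nat.card {P : R × R // P.2 ^ 2 = P.1 ^ 3 - 1} := by
  unfold pts
  refine Nat.card_congr (Equiv.subtypeEquivRight fun P => ?_)
  rw [base_eq, WeierstrassCurve.Affine.equation_iff]
  simp only [Em]
  constructor
  · intro h
    linear_combination h
  · intro h
    linear_combination h

section

variable {k : Type} [Field k] [NumberField k]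

lemma disc_mem (v : HeightOneSpectrum (𝓞 k)) :
    ((E.Δ : ℤ) : 𝓞 k) ∈ v.asIdeal ↔ (6 : 𝓞 k) ∈ v.asIdeal := by
  have h2 : ((E.Δ : ℤ) : 𝓞 k) = -(6 ^ 3 * 2) := by
    rw [E_disc]
    push_cast
    norm_num
  rw [h2, neg_mem_iff]
  constructor
  · intro h
    rcases v.isPrime.mem_or_mem h with h | h
    · exact v.isPrime.mem_of_pow_mem 3 h
    · rw [show (6 : 𝓞 k) = 2 * 3 by norm_num]
      exact Ideal.mul_mem_right _ _ h
  · intro h
    exact Ideal.mul_mem_right _ _ (Ideal.pow_mem_of_mem _ h 3 (by norm_num))

lemma factor_eq (s : ℂ) (v : HeightOneSpectrum (𝓞 k)) : factor E s v = fac v s := by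
  have hN : Ideal.absNorm v.asIdeal = nmF v := by
    rw [Ideal.absNorm_apply, Submodule.cardQuot_apply]
    rfl
  have hp : pts E (𝓞 k ⧸ v.asIdeal) = ptsF v := pts_eq _
  unfold factor fac facD
  rw [a, hN, hp, disc_mem]
  by_cases h6 : (6 : 𝓞 k) ∈ v.asIdeal
  · rw [if_pos h6, if_pos h6]
    have h1 : ptsF v = nmF v := by
      unfold ptsF nmF
      have : v.asIdeal.IsMaximal := v.isMaximal
      let := Ideal.Quotient.field v.asIdeal
      have : Finite (𝓞 k ⧸ v.asIdeal) := Ideal.finiteQuotientOfFreeOfNeBot v.asIdeal v.ne_bot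
      have h2 : (2 : 𝓞 k) ∈ v.asIdeal ∨ (3 : 𝓞 k) ∈ v.asIdeal := by
        refine v.isPrime.mem_or_mem ?_
        rw [show (2 : 𝓞 k) * 3 = 6 by norm_num]
        exact h6
      rcases h2 with h2 | h2
      · have h3 : (2 : 𝓞 k ⧸ v.asIdeal) = 0 := by
          have := (Ideal.Quotient.eq_zero_iff_mem).2 h2
          rwa [map_ofNat] at this
        exact pts_two h3 1
      · have h3 : (3 : 𝓞 k ⧸ v.asIdeal) = 0 := by
          have := (Ideal.Quotient.eq_zero_iff_mem).2 h2
          rwa [map_ofNat] at this
        exact pts_three h3 1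
    rw [h1, sub_self]
    simp
  · rw [if_neg h6, if_neg h6]

lemma rank_zero (h : Finite (Em k).toAffine.Point) : rank k E = 0 := by
  unfold rank
  rw [base_eq]
  exact Module.finrank_eq_zero_of_rank_eq_zero (rank_eq_zero_iff.2 fun x => by
    obtain ⟨n, hn, hx⟩ := isOfFinAddOrder_iff_nsmul_eq_zero.1 (isOfFinAddOrder_of_finite x)
    exact ⟨n, by exact_mod_cast hn.ne', by rw [natCast_zsmul]; exact hx⟩)

lemma concl (h1 : OutA k) (h2 : OutB k) (h3 : OutC k) : AnalyticRankZero k E ∧ rank k E = 0 := by
  obtain ⟨L, b1, b2, b3, b4, -⟩ := h1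
  refine ⟨⟨fun v => ?_, L, b1, fun s hs => ?_, b3, b4⟩, rank_zero h2.1⟩
  · rw [base_eq]
    exact (h3 v).1
  · have h5 : factor (k := k) E s = fun w => fac w s := funext fun w => factor_eq s w
    rw [h5]
    exact b2 s hs

end

/-- **Main theorem.**  `E : y² = x³ - 1`.  For every number field `k` contained in the field `Ω` generated
by `√-3`, the cube roots of all the numbers of the class and all the numbers of degree `3^n` in the
cyclotomic fields of order composed of primes that are `7` modulo `12`, `L(E/k, s)` is meromorphic on `ℂ`,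
and analytic and not zero at `s = 1`, and the rank of `E(k)` is zero. -/
theorem result (k : IntermediateField ℚ ℂ) [NumberField k] (hk : k ≤ Omega) :
    AnalyticRankZero k E ∧ rank k E = 0 := by
  obtain ⟨h1, h2, h3⟩ := out_Om E7 k hk
  exact concl h1 h2 h3

/-- The general form for abelian extensions.  Let `K = ℚ(√-3)`, let `F/K` be a Galois extension of degree
`3^n` and suppose that `F / K` has an Artin map of a good modulus.  The same is true for `k = F` and for
every field `k` contained in `F`, with `√-3` not in `k`, such that `F/k` has degree two. -/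
theorem abelian_extensions (K F : Type) [Field K] [NumberField K] [IsCyclotomicExtension {3} ℚ K]
    [Field F] [NumberField F] [Algebra K F] [IsGalois K F] (n : ℕ) (hn : Module.finrank K F = 3 ^ n)
    (c : 𝓞 K) (art : (𝓞 K ⧸ Ideal.span {c})ˣ →* Gal(F/K)) (hart : IsArtinMap c art)
    (hc : GoodModulus c) :
    (AnalyticRankZero F E ∧ rank F E = 0) ∧
      ∀ (k : Type) [Field k] [NumberField k] [Algebra k F], Module.finrank k F = 2 →
        (∀ x : k, x ^ 2 ≠ -3) → AnalyticRankZero k E ∧ rank k E = 0 := by
  have hart' : Pool.Agent.Y696.IsArtin c art := ⟨hart.1, hart.2.1, hart.2.2⟩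
  have hc' : GoodC c := hc
  have hR := ram_of_art hart' hc'
  refine ⟨concl (outA_F hn hart' hc') (outB_F hn hR) (outC_F hn hR), ?_⟩
  intro k _ _ _ h2 hk
  exact concl (outA_k hn hart' hc' h2 hk) (outB_k hn hR h2 hk) (outC_k hn hR h2 hk)

/-- The algebraic side.  Let `F/K` be a Galois extension of degree `3^n` (abelian or not) with good
ramification.  For every number field `k` contained in `F`, the group `E(k)` is finite of order prime to
three and the rank of `E(k)` is zero. -/
theorem galois_extensions (K F : Type) [Field K] [NumberField K] [IsCyclotomicExtension {3} ℚ K]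
    [Field F] [NumberField F] [Algebra K F] [IsGalois K F] (n : ℕ) (hn : Module.finrank K F = 3 ^ n)
    (hR : GoodRamification K F) (k : Type) [Field k] [NumberField k] [Algebra k F] :
    Finite (base E k).toAffine.Point ∧ ¬ 3 ∣ Nat.card (base E k).toAffine.Point ∧ rank k E = 0 := by
  have hR' : Ram K F := hR
  obtain ⟨h1, h2, -⟩ := outB_F hn hR'
  obtain ⟨h3, h4⟩ := Pool.Agent.W2helper55.TQ.pts_down_vr
    (Pool.Agent.W2helper55.TQ.vr_Em k F) (Pool.Agent.W2helper55.TQ.disc_m F) h1
  rw [base_eq]
  exact ⟨h3, fun h => h2 (h.trans h4), rank_zero h3⟩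

end Pool.Agent.Results.MP_ae0bd0_nt.ThreePowerOmega
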