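import Pool.Agent.W2helper33.FB.End

/-!
# The rank part of the Birch and Swinnerton-Dyer conjecture over a fixed multiquadratic field and its
# cyclotomic extensions for a positive proportion of the quadratic twists of `X_0(14)` in natural
# families

`E_D` is the quadratic twist by `D` of the modular curve `X_0(14)`; the curves have no complex
multiplication.  A prime is inert if it is `5` modulo `8` and not a square modulo `7`, and split if it
is `1` modulo `8` and a square modulo `7`.  Let `F₀ = ℚ(√M_1, …, √M_m)` be a multiquadratic field of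
degree `2^m`, where the `M_i` are products of inert primes, for example `ℚ(√5)` or `ℚ(√5, √13)`.  Let
`S` be a set of primes of positive lower density both among the inert and among the split primes, such
that the sum of the inverses of the inert primes of `S` up to `y` is `δ log log y` up to a bounded
error, which contains no prime factor of an `M_i` and such that the decomposition types in `F₀` of the
split primes of `S` are equidistributed; for example the primes not dividing the `M_i` in any nonempty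
set `R` of reduced residue classes modulo a number `N` prime to `14` and to the `M_i`, with
`δ = #R / (8 φ(N))`.  Let `k` be `1` or `2`.  The family consists of the squarefree `D` with exactly `k`
split and any number of inert prime factors, all of them in `S`.

* The number of the `D ≤ X` in the family has the order of magnitude
  `X (log X)^(δ - 1) (log log X)^k`.
* The proportion of the `D` for which all the `2^m` twists `E_d` with `d` in the classes of
  `D ∏_{i ∈ B} M_i` modulo squares, `B ⊆ {1, …, m}`, have rank zero over `ℚ` and no element of order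
  two in `Ш(E_d/ℚ)` tends to `2^(-(m + 1))` if `k = 1`, and to `(3 · 2^m - 1) / (4 · 4^m)` if `k = 2`;
  for example to `1/4` and `5/16` for a quadratic field `F₀`.
* For exactly these `D`, and for the field `F = F₀` and all the fields `F = F₀ K`, the equation is
  minimal, `L(E_D/F, s)` is entire and does not vanish at `s = 1`, and `E_D(F)` has rank zero.  Here
  `K` is any subfield of odd degree of the field of the `q`-th roots of unity, `q` a power of a prime
  not dividing `14`, such that the prime factors of `D` are inert in `K`, the prime factors of the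
  `M_i` are inert in `K` or divide `q`, and `q` is a power of three or `2` and `7` are inert in `K` and
  the narrow class number of `K` is odd.
* If all the prime factors of `D` and the `M_i` are `2`, `4`, `5` or `7` modulo `9`, then all the layers
  of the cyclotomic `ℤ₃`-extension of `ℚ` are such fields `K`.

The proof.  The twists by the classes of `D ∏_{i ∈ B} M_i` give `2^m` matrices of residue symbols which
differ only in the diagonal, by the symbols of the `M_i` modulo the split primes.  The matrices are all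
nonsingular if and only if these symbols and the other ones satisfy a condition.  For fixed symbols of
the `M_i` the remaining symbols are equidistributed by the quadratic large sieve in boxes (library),
with arbitrary labels on the primes; a second argument in one prime after the other shows that the
labels of the split primes are equidistributed.  The `L`-function of `E_D` over `F` is the product of
the `L`-functions of the twists of `X_0(14)` by the characters of `F` times the quadratic character of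
`D`; these are among the characters of `F(√D)`, for which the values at `1` are not zero.
-/

set_option autoImplicit false

open NumberField IsDedekindDomain WeierstrassCurve Filter Topology Finset

namespace Pool.Agent.Results.MP_ae0bd0_nt.TwistsOverMultiquadraticFields

open scoped Classical

open Pool.Agent.TH841.NF.D (Sha)

open Pool.Agent.Y682 (NCl)

/-- The quadratic twist `E_D` of `X_0(14)` (`D = 1` modulo `4`), with its global minimal equation
`y² + x y + y = x³ + ((D - 1)/4) x² + ((9 D² - 1)/2) x - (23 D³ + 1)/4`.  It is isomorphic to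
`Y² = X (X² + 13 D X + 128 D²)` by `X = 4 (x - D)`, `Y = 4 (2 y + x + 1)`. -/
def twist (D : ℤ) : WeierstrassCurve ℤ :=
  ⟨1, (D - 1) / 4, 1, (9 * D ^ 2 - 1) / 2, -((23 * D ^ 3 + 1) / 4)⟩

/-- The curve given by the equation of `W` over the ring `R`. -/
abbrev base (W : WeierstrassCurve ℤ) (R : Type) [CommRing R] : WeierstrassCurve R :=
  W.map (Int.castRingHom R)

/-- The number of the affine points `(x, y)` over the ring `R`. -/
noncomputable def pts (W : WeierstrassCurve ℤ) (R : Type) [CommRing R] : ℕ :=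
  Nat.card {P : R × R // (base W R).toAffine.Equation P.1 P.2}

section

variable {K : Type} [Field K] [NumberField K]

/-- `a_v = N v + 1 - #W(k_v)`, the points over the residue field `k_v` counted with the point at
infinity. -/
noncomputable def a (W : WeierstrassCurve ℤ) (v : HeightOneSpectrum (𝓞 K)) : ℤ :=
  (Ideal.absNorm v.asIdeal : ℤ) - pts W (𝓞 K ⧸ v.asIdeal)

/-- The Euler factor of `L(W/K, s)` at `v` : `(1 - a_v N v^(-s) + N v^(1 - 2 s))⁻¹` if the
discriminant is a unit at `v`, and `(1 - a_v N v^(-s))⁻¹` otherwise. -/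
noncomputable def factor (W : WeierstrassCurve ℤ) (s : ℂ) (v : HeightOneSpectrum (𝓞 K)) : ℂ :=
  (1 - (a W v : ℂ) * (Ideal.absNorm v.asIdeal : ℂ) ^ (-s) +
    if ((W.Δ : ℤ) : 𝓞 K) ∈ v.asIdeal then 0 else (Ideal.absNorm v.asIdeal : ℂ) ^ (1 - 2 * s))⁻¹

/-- The equation is minimal at the finite place `v` of `K`: no change of variables over `K` that
keeps the coefficients integral at `v` decreases the valuation of the discriminant. -/
def MinimalAt (W : WeierstrassCurve ℤ) (v : HeightOneSpectrum (𝓞 K)) : Prop :=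
  ∀ C : VariableChange K, v.valuation K (C • base W K).a₁ ≤ 1 →
    v.valuation K (C • base W K).a₂ ≤ 1 → v.valuation K (C • base W K).a₃ ≤ 1 →
    v.valuation K (C • base W K).a₄ ≤ 1 → v.valuation K (C • base W K).a₆ ≤ 1 →
    v.valuation K (C • base W K).Δ ≤ v.valuation K (base W K).Δ

end

section

variable (K : Type) [Field K] [NumberField K]

/-- The rank of the group of the points over `K`. -/
noncomputable def rank (W : WeierstrassCurve ℤ) : ℕ := Module.finrank ℤ (base W K).toAffine.Point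

/-- The rank is zero and the Tate-Shafarevich group over `K` has no element of order two. -/
def RankShaTrivial (W : WeierstrassCurve ℤ) : Prop :=
  rank K W = 0 ∧ ∀ x : Sha (base W K), 2 • x = 0 → x = 0

/-- The equation is minimal over `K`, there is an entire function equal to `L(W/K, s)` for
`Re s > 3 / 2`, and its value at `1` is not zero. -/
def AnalyticRankZero (W : WeierstrassCurve ℤ) : Prop :=
  (∀ v : HeightOneSpectrum (𝓞 K), MinimalAt W v) ∧
  ∃ L : ℂ → ℂ, Differentiable ℂ L ∧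
    (∀ s : ℂ, 3 / 2 < s.re → HasProd (factor (K := K) W s) (L s)) ∧ L 1 ≠ 0

/-- `n` generates a prime ideal of the ring of integers of `K`. -/
def InertIn (n : ℕ) : Prop := (Ideal.span {((n : ℕ) : 𝓞 K)}).IsPrime

end

/-- The subfield `ℚ(√M₁, …, √M_m)` of `ℂ`. -/
noncomputable def multiquadratic {m : ℕ} (M : Fin m → ℕ) : IntermediateField ℚ ℂ :=
  IntermediateField.adjoin ℚ {z : ℂ | ∃ i, z ^ 2 = (M i : ℂ)}

/-- The subfield of `ℂ` generated by the `q`-th roots of unity. -/
noncomputable def cyclotomic (q : ℕ) : IntermediateField ℚ ℂ :=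
  IntermediateField.adjoin ℚ {z : ℂ | z ^ q = 1}

/-- The inert primes. -/
def Inert (q : ℕ) : Prop := q.Prime ∧ q % 8 = 5 ∧ (q % 7 = 3 ∨ q % 7 = 5 ∨ q % 7 = 6)

/-- The split primes. -/
def Split (p : ℕ) : Prop := p.Prime ∧ p % 8 = 1 ∧ (p % 7 = 1 ∨ p % 7 = 2 ∨ p % 7 = 4)

/-- The `M i` are squarefree, all their prime factors are inert, and no product of some of the `M i`
(at least one) is a square. -/
def Base {m : ℕ} (M : Fin m → ℕ) : Prop :=
  (∀ i, Squarefree (M i) ∧ ∀ p : ℕ, p.Prime → p ∣ M i → Inert p) ∧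
    ∀ B : Finset (Fin m), B.Nonempty → ¬ IsSquare (∏ i ∈ B, M i)

/-- `D` is squarefree, all its prime factors are in `S` and split or inert, and exactly `k` of them are
split. -/
def Family (S : Set ℕ) (k D : ℕ) : Prop :=
  Squarefree D ∧ (∀ p : ℕ, p.Prime → p ∣ D → p ∈ S ∧ (Split p ∨ Inert p)) ∧
    (D.primeFactors.filter fun p => p % 8 = 1).card = k

/-- For every product `D ∏_{i ∈ B} M i` and the squarefree number `d` in its class modulo squares, the
rank of `E_d(ℚ)` is zero and the Tate-Shafarevich group of `E_d` over `ℚ` has no element of order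
two. -/
def SimultaneouslyTrivial {m : ℕ} (M : Fin m → ℕ) (D : ℕ) : Prop :=
  ∀ (B : Finset (Fin m)) (d : ℕ), Squarefree d → IsSquare (d * (D * ∏ i ∈ B, M i)) →
    RankShaTrivial ℚ (twist (d : ℤ))

/-- The subfield `K` of the field of the `q`-th roots of unity is allowed for `M` and `D`: `q` is a
power of a prime not dividing `14`, the degree of `K` is odd, either `3` divides `q` or `2` and `7` are
inert in `K` and the narrow class number of `K` is odd, the prime factors of the `M i` divide `q` or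
are inert in `K`, and the prime factors of `D` do not divide `q` and are inert in `K`. -/
def Allowed {m : ℕ} (M : Fin m → ℕ) (D q : ℕ) (K : IntermediateField ℚ ℂ) [NumberField K] : Prop :=
  IsPrimePow q ∧ q.Coprime 14 ∧ K ≤ cyclotomic q ∧ Odd (Module.finrank ℚ K) ∧
    (3 ∣ q ∨ (InertIn K 2 ∧ InertIn K 7 ∧ Odd (Nat.card (NCl K)))) ∧
    (∀ (i : Fin m) (p : ℕ), p.Prime → p ∣ M i → p ∣ q ∨ InertIn K p) ∧
    ∀ p : ℕ, p.Prime → p ∣ D → ¬ p ∣ q ∧ InertIn K p

/-- `SimultaneouslyTrivial`; for all the same `d` the `L`-function of `E_d` over `ℚ` is entire and does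
not vanish at `1`; and for `F = F₀ = ℚ(√M₁, …, √M_m)` and all the fields `F = F₀ K` with `K` allowed,
the `L`-function of `E_D` over `F` is entire and does not vanish at `1`, and the rank of `E_D(F)` is
zero. -/
def Good {m : ℕ} (M : Fin m → ℕ) (D : ℕ) : Prop :=
  SimultaneouslyTrivial M D ∧
  (∀ (B : Finset (Fin m)) (d : ℕ), Squarefree d → IsSquare (d * (D * ∏ i ∈ B, M i)) →
    AnalyticRankZero ℚ (twist (d : ℤ))) ∧
  (∀ (F₀ : IntermediateField ℚ ℂ) [NumberField F₀], F₀ = multiquadratic M →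
    AnalyticRankZero F₀ (twist (D : ℤ)) ∧ rank F₀ (twist (D : ℤ)) = 0) ∧
  ∀ (q : ℕ) (K : IntermediateField ℚ ℂ) [NumberField K], Allowed M D q K →
    ∀ (F : IntermediateField ℚ ℂ) [NumberField F], F = multiquadratic M ⊔ K →
      AnalyticRankZero F (twist (D : ℤ)) ∧ rank F (twist (D : ℤ)) = 0

/-- at least a positive proportion of the primes up to `Y` is in `S` and of the kind `Q`, for all large
`Y` -/
def Dense (S : Set ℕ) (Q : ℕ → Prop) : Prop := ∃ (δ : ℝ) (Y₀ : ℕ), 0 < δ ∧ ∀ Y : ℕ, Y₀ ≤ Y →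
  δ * (Y / Real.log Y) ≤ (Nat.card {p : ℕ // p ≤ Y ∧ p ∈ S ∧ Q p} : ℝ)

/-- `S` has positive lower densities among the split and among the inert primes, and the sum of the
inverses of the inert primes of `S` up to `y` is `δ log log y` up to a bounded error. -/
def Regular (S : Set ℕ) (δ : ℝ) : Prop :=
  0 < δ ∧ δ ≤ 1 ∧ Dense S Split ∧ Dense S Inert ∧ ∃ C : ℝ, ∀ y : ℕ, 3 ≤ y →
    |∑ p ∈ (range (y + 1)).filter (fun p => p ∈ S ∧ Inert p), (1 : ℝ) / p -
      δ * Real.log (Real.log y)| ≤ C

/-- `S` contains no prime factor of an `M i`, and for each of the `2 ^ m` sets `B` of indices, the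
proportion of the split primes `p` in `S` such that `M i` is a square modulo `p` exactly for the
indices `i` in `B` is `2 ^ (-m)`. -/
def Balanced (S : Set ℕ) {m : ℕ} (M : Fin m → ℕ) : Prop :=
  (∀ p ∈ S, ∀ i, ¬ p ∣ M i) ∧ ∀ B : Finset (Fin m), Tendsto (fun Y : ℕ =>
    (Nat.card {p : ℕ // p ≤ Y ∧ p ∈ S ∧ Split p ∧ ∀ i, IsSquare ((M i : ℕ) : ZMod p) ↔ i ∈ B} : ℝ) /
      (Nat.card {p : ℕ // p ≤ Y ∧ p ∈ S ∧ Split p} : ℝ)) atTop (𝓝 ((1 / 2) ^ m))

/-- the number of the `D` with `1 ≤ D ≤ X` and `Q D` -/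
noncomputable def count (Q : ℕ → Prop) (X : ℕ) : ℕ := Nat.card {D : ℕ // 1 ≤ D ∧ D ≤ X ∧ Q D}

open Pool.Agent.W2helper41.N (FamN Rg IA SA cf)

open Pool.Agent.W2helper33.FB

lemma count_eq (Q : ℕ → Prop) [DecidablePred Q] (X : ℕ) : count Q X = ((Icc 1 X).filter Q).card := by
  unfold count
  rw [← Fintype.card_coe, ← Nat.card_eq_fintype_card]
  refine Nat.card_congr (Equiv.subtypeEquivRight fun p => ?_)
  rw [Finset.mem_filter, Finset.mem_Icc, and_assoc]

lemma card_le (S : Set ℕ) (Q : ℕ → Prop) {R : ℕ → Prop} [DecidablePred R]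
    (h : ∀ p, (p ∈ S ∧ Q p) ↔ R p) (Y : ℕ) :
    Nat.card {p : ℕ // p ≤ Y ∧ p ∈ S ∧ Q p} = ((range (Y + 1)).filter R).card := by
  rw [← Fintype.card_coe, ← Nat.card_eq_fintype_card]
  refine Nat.card_congr (Equiv.subtypeEquivRight fun p => ?_)
  rw [Finset.mem_filter, Finset.mem_range, Nat.lt_succ_iff, h]

open Pool.Agent.V11291.FK (Dn) in
lemma dense_iff (S : Set ℕ) (Q : ℕ → Prop) {R : ℕ → Prop} (h : ∀ p, (p ∈ S ∧ Q p) ↔ R p) :
    Dense S Q ↔ Dn R := by
  unfold Dense Dn
  refine exists_congr fun δ => exists_congr fun Y₀ => and_congr_right fun _ =>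
    forall_congr' fun Y => imp_congr_right fun _ => ?_
  rw [card_le S Q h Y]

lemma reg_iff (S : Set ℕ) (δ : ℝ) : Regular S δ ↔ Rg (fun p => p ∈ S) δ := by
  have h1 : Dense S Split ↔ Pool.Agent.V11291.FK.Dn (SA fun p => p ∈ S) :=
    dense_iff S Split fun p => Iff.rfl
  have h2 : Dense S Inert ↔ Pool.Agent.V11291.FK.Dn (IA fun p => p ∈ S) :=
    dense_iff S Inert fun p => Iff.rfl
  have h3 : ∀ y : ℕ, ∑ p ∈ (range (y + 1)).filter (fun p => p ∈ S ∧ Inert p), (1 : ℝ) / p =
      ∑ p ∈ (range (y + 1)).filter (fun p => p.Prime ∧ IA (fun p => p ∈ S) p), (1 : ℝ) / p := by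
    intro y
    refine Finset.sum_congr ?_ fun _ _ => rfl
    refine Finset.filter_congr fun p _ => ?_
    exact ⟨fun h => ⟨h.2.1, h⟩, fun h => h.2⟩
  constructor
  · rintro ⟨a1, a2, a3, a4, C, a5⟩
    exact ⟨a1, a2, h1.1 a3, h2.1 a4, C, fun y hy => by rw [← h3]; exact a5 y hy⟩
  · rintro ⟨a1, a2, a3, a4, C, a5⟩
    exact ⟨a1, a2, h1.2 a3, h2.2 a4, C, fun y hy => by rw [h3]; exact a5 y hy⟩

lemma fam_iff (S : Set ℕ) (k D : ℕ) : Family S k D ↔ FamN (fun p => p ∈ S) k D := by
  unfold Family FamN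
  constructor
  · rintro ⟨h1, h2, h3⟩
    exact ⟨h1, fun p hp => h2 p (Nat.prime_of_mem_primeFactors hp)
      (Nat.dvd_of_mem_primeFactors hp), h3⟩
  · rintro ⟨h1, h2, h3⟩
    exact ⟨h1, fun p hp hd => h2 p (Nat.mem_primeFactors.2 ⟨hp, hd, h1.ne_zero⟩), h3⟩

section

variable {m : ℕ} {M : Fin m → ℕ}

lemma base_ine (hM : Base M) : ∀ i, ∀ q ∈ (M i).primeFactors, Inert q := fun i q hq =>
  (hM.1 i).2 q (Nat.prime_of_mem_primeFactors hq) (Nat.dvd_of_mem_primeFactors hq)

lemma base_sqf (hM : Base M) : ∀ i, Squarefree (M i) := fun i => (hM.1 i).1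

/-- the labels of the library -/
lemma cls_zero (hM : Base M) {p : ℕ} (hp : Split p) (i : Fin m) :
    cls M p i = 0 ↔ IsSquare ((M i : ℕ) : ZMod p) := by
  have : Fact p.Prime := ⟨hp.1⟩
  have hnd : ∀ q ∈ (M i).primeFactors, ¬ p ∣ q := by
    intro q hq h
    have h1 := base_ine hM i q hq
    have h2 := (Nat.prime_dvd_prime_iff_eq hp.1 h1.1).1 h
    have h3 := h1.2.1
    have h4 := hp.2.1
    omega
  have hpr : ∏ q ∈ (M i).primeFactors, q = M i :=
    Nat.prod_primeFactors_of_squarefree (base_sqf hM i)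
  have h0 : (((M i : ℕ) : ℤ) : ZMod p) ≠ 0 := by
    rw [Int.cast_natCast, Ne, ZMod.natCast_eq_zero_iff, ← hpr]
    intro h
    obtain ⟨q, hq, h1⟩ := (hp.1.prime.dvd_finsetProd_iff _).1 h
    exact hnd q hq h1
  have h1 : sg (cls M p i) = legendreSym p ((M i : ℕ) : ℤ) := by
    unfold cls
    rw [sg_sum, Finset.prod_congr rfl fun q hq => sg_nr hp.1 (hnd q hq), ← jac_left, hpr,
      jacobiSym.legendreSym.to_jacobiSym]
  have h2 : ∀ x : ZMod 2, sg x = 1 ↔ x = 0 := by
    intro x
    rcases z2 x with rfl | rfl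
    · simp [sg_zero]
    · simp [sg_one]
  rw [← h2, h1, legendreSym.eq_one_iff p h0, Int.cast_natCast]

lemma bal_iff (S : Set ℕ) (hM : Base M) :
    (∀ B : Finset (Fin m), Tendsto (fun Y : ℕ =>
    (Nat.card {p : ℕ // p ≤ Y ∧ p ∈ S ∧ Split p ∧ ∀ i, IsSquare ((M i : ℕ) : ZMod p) ↔ i ∈ B} : ℝ) /
      (Nat.card {p : ℕ // p ≤ Y ∧ p ∈ S ∧ Split p} : ℝ)) atTop (𝓝 ((1 / 2) ^ m))) ↔
    Bal (fun p => p ∈ S) (cls M) := by
  have hcard : (1 : ℝ) / Fintype.card (Fin m → ZMod 2) = (1 / 2) ^ m := by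
    rw [Fintype.card_fun, ZMod.card, Fintype.card_fin]
    push_cast
    rw [div_pow, one_pow]
  have key : ∀ (c : Fin m → ZMod 2) (B : Finset (Fin m)), (∀ i, c i = 0 ↔ i ∈ B) → ∀ Y : ℕ,
      (Nat.card {p : ℕ // p ≤ Y ∧ p ∈ S ∧ Split p ∧ ∀ i, IsSquare ((M i : ℕ) : ZMod p) ↔ i ∈ B} : ℝ) /
      (Nat.card {p : ℕ // p ≤ Y ∧ p ∈ S ∧ Split p} : ℝ) =
      (((range (Y + 1)).filter fun p => SA (fun p => p ∈ S) p ∧ cls M p = c).card : ℝ) /
      (((range (Y + 1)).filter fun p => SA (fun p => p ∈ S) p).card : ℝ) := by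
    intro c B hcB Y
    rw [card_le S (fun p => Split p ∧ ∀ i, IsSquare ((M i : ℕ) : ZMod p) ↔ i ∈ B)
      (R := fun p => SA (fun p => p ∈ S) p ∧ cls M p = c) ?_ Y,
      card_le S Split (R := fun p => SA (fun p => p ∈ S) p) (fun p => Iff.rfl) Y]
    intro p
    constructor
    · rintro ⟨h1, h2, h3⟩
      refine ⟨⟨h1, h2⟩, funext fun i => ?_⟩
      have h4 : cls M p i = 0 ↔ c i = 0 := by rw [cls_zero hM h2, h3, hcB]
      rcases z2 (cls M p i) with h | h <;> rcases z2 (c i) with h' | h'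
      · rw [h, h']
      · exact absurd (h4.1 h) (by rw [h']; exact one_ne_zero)
      · exact absurd (h4.2 h') (by rw [h]; exact one_ne_zero)
      · rw [h, h']
    · rintro ⟨⟨h1, h2⟩, h3⟩
      refine ⟨h1, h2, fun i => ?_⟩
      rw [← cls_zero hM h2, h3, hcB]
  constructor
  · intro h c
    rw [hcard]
    obtain ⟨B, hB⟩ : ∃ B : Finset (Fin m), ∀ i, c i = 0 ↔ i ∈ B :=
      ⟨univ.filter fun i => c i = 0, fun i => by rw [Finset.mem_filter]; simp⟩
    refine (h B).congr fun Y => ?_
    convert key c B hB Y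
  · intro h B
    obtain ⟨c, hc⟩ : ∃ c : Fin m → ZMod 2, ∀ i, c i = 0 ↔ i ∈ B :=
      ⟨fun i => if i ∈ B then 0 else 1, fun i => by by_cases hi : i ∈ B <;> simp [hi]⟩
    have h1 := h c
    rw [hcard] at h1
    refine h1.congr fun Y => ?_
    convert (key c B hc Y).symm

lemma mq_eq (M : Fin m → ℕ) : multiquadratic M = Pool.Agent.Y682.XD.mq (SM M) := by
  unfold SM
  rw [← Pool.Agent.W2helper41.Y.mq_nat]
  unfold multiquadratic
  congr 1
  ext z
  constructor
  · rintro ⟨i, hi⟩
    exact ⟨M i, mem_image_of_mem _ (mem_univ i), hi⟩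
  · rintro ⟨d, hd, hz⟩
    obtain ⟨i, -, rfl⟩ := mem_image.1 hd
    exact ⟨i, hz⟩

lemma analytic {T P : Finset ℕ} (hT : ∀ q ∈ T, Inert q) (hP : ∀ p ∈ P, Split p) (hc : P.card ≤ 2)
    (hdet : (Pool.Agent.W2helper41.X.mat P (∏ q ∈ T, q)).det ≠ 0) :
    AnalyticRankZero ℚ (twist (((∏ q ∈ T, q) * ∏ p ∈ P, p : ℕ) : ℤ)) := by
  obtain ⟨a1, -, a3, a4, -, L₁, x₁, b1, b2, b3, -, b5⟩ :=
    Pool.Agent.W2helper41.X.main Pool.Agent.W2helper41.X.parts hP hT hc
  refine ⟨a1, L₁, b1, b2, fun h0 => ?_⟩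
  rw [h0, zero_mul] at b3
  have h1 : (x₁ : ℂ) ≠ 0 := Rat.cast_ne_zero.2 (b5.2 hdet).1
  exact mul_ne_zero (mul_ne_zero h1 (Complex.ofReal_ne_zero.2 a3.ne'))
    (Nat.cast_ne_zero.2 a4.ne') b3.symm

lemma analytic_reg {d : ℕ} (h : Pool.Agent.W2helper41.Y.Reg d) :
    AnalyticRankZero ℚ (twist (d : ℤ)) := by
  obtain ⟨T, P, hT, hP, hc, rfl, hdet⟩ := h
  exact analytic hT hP hc hdet

lemma simul (hM : Base M) {S : Set ℕ} (hS : ∀ p ∈ S, ∀ i, ¬ p ∣ M i) {k D : ℕ}
    (hD : Family S k D) : SimultaneouslyTrivial M D ↔ Gm M D.primeFactors :=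
  simul_iff (base_ine hM) (base_sqf hM) hS ((fam_iff S k D).1 hD)

lemma good_iff (hM : Base M) {S : Set ℕ} (hS : ∀ p ∈ S, ∀ i, ¬ p ∣ M i) {k D : ℕ} (hk0 : 0 < k)
    (hk : k ≤ 2) (hD : Family S k D) : Good M D ↔ SimultaneouslyTrivial M D := by
  refine ⟨fun h => h.1, fun h => ⟨h, ?_, ?_, ?_⟩⟩
  · intro B d hd hsq
    rw [(cls_iff (base_sqf hM) hS ((fam_iff S k D).1 hD) B hd).1 hsq]
    exact analytic_reg (reg_tw (base_ine hM) hS ((fam_iff S k D).1 hD) hk ((simul hM hS hD).1 h) B)
  · intro F₀ _ hF₀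
    obtain ⟨h1, L, h2, h3, h4, h5⟩ := flds_Q (base_ine hM) (base_sqf hM) hM.2 hS
      ((fam_iff S k D).1 hD) hk0 hk ((simul hM hS hD).1 h) F₀ (hF₀.trans (mq_eq M))
    exact ⟨⟨h1, L, h2, h3, h4⟩, h5⟩
  · intro q K _ hK F _ hF
    obtain ⟨hq, hco, hKq, hodd, hcl, hin, hinD⟩ := hK
    have hfd := (Pool.Agent.W2helper41.Y.rank_zero' Pool.Agent.W2helper41.Y.parts.qf
      Pool.Agent.W2helper41.Y.parts.deg2 Pool.Agent.W2helper41.Y.parts.rke
      Pool.Agent.W2helper41.Y.parts.sq (SM M) (by
        intro e he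
        obtain ⟨i, rfl⟩ := mem_SM.1 he
        exact_mod_cast (base_sqf hM i).ne_zero)).1
    have hN₀ : NumberField (Pool.Agent.Y682.XD.mq (SM M)) :=
      { to_charZero := inferInstance, to_finiteDimensional := hfd }
    obtain ⟨⟨-, h1⟩, G₀, L, -, h2, -, h3, -, h4, -, h5⟩ := flds (base_ine hM) (base_sqf hM) hM.2 hS
      ((fam_iff S k D).1 hD) hk0 hk ((simul hM hS hD).1 h) q hq hco K hKq hodd hcl hin hinD
      (Pool.Agent.Y682.XD.mq (SM M)) F rfl (by rw [hF, mq_eq])
    exact ⟨⟨h1, L, h2, h3, h4⟩, h5⟩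

/-- the two laws -/
lemma laws (hM : Base M) {S : Set ℕ} (hS : ∀ p ∈ S, ∀ i, ¬ p ∣ M i) {k : ℕ} (hk0 : 0 < k)
    (hk : k ≤ 2) {c : ℝ} (h : Tendsto (fun X : ℕ =>
      (((Icc 1 X).filter fun D => FamN (fun p => p ∈ S) k D ∧ Gm M D.primeFactors).card : ℝ) /
      (((Icc 1 X).filter fun D => FamN (fun p => p ∈ S) k D).card : ℝ)) atTop (𝓝 c)) :
    Tendsto (fun X : ℕ => (count (fun D => Family S k D ∧ SimultaneouslyTrivial M D) X : ℝ) /
      (count (Family S k) X : ℝ)) atTop (𝓝 c) ∧
    Tendsto (fun X : ℕ => (count (fun D => Family S k D ∧ Good M D) X : ℝ) /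
      (count (Family S k) X : ℝ)) atTop (𝓝 c) := by
  have e1 : ∀ X : ℕ, count (Family S k) X =
      ((Icc 1 X).filter fun D => FamN (fun p => p ∈ S) k D).card := by
    intro X
    rw [count_eq]
    exact cf fun D _ => fam_iff S k D
  constructor
  · refine h.congr fun X => ?_
    rw [e1, count_eq]
    refine congrArg (fun n : ℕ => (n : ℝ) / _) (cf fun D _ => ?_)
    rw [← fam_iff]
    exact and_congr_right fun hF => (simul hM hS hF).symm
  · refine h.congr fun X => ?_
    rw [e1, count_eq]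
    refine congrArg (fun n : ℕ => (n : ℝ) / _) (cf fun D _ => ?_)
    rw [← fam_iff]
    exact and_congr_right fun hF => ((good_iff hM hS hk0 hk hF).trans (simul hM hS hF)).symm

lemma base_TM (hM : Base M) (B : Finset (Fin m)) (hB : B.Nonempty) : (TM M B).Nonempty := by
  by_contra h
  rw [not_nonempty_iff_eq_empty] at h
  obtain ⟨g, -, hg⟩ := prod_TM M (base_sqf hM) B
  rw [h, Finset.prod_empty, one_mul] at hg
  exact hM.2 B hB ⟨g, by rw [hg, sq]⟩

end

/-- **Main theorem.**

(1) Let `M` satisfy `Base`, and let `S` be a regular set of primes with the density `δ` of the inert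
primes that is balanced for `M`.  For `k = 1, 2`, the number of the elements up to `X` of the family of
`S, k` is between two positive constants times `X (log X)^(δ - 1) (log log X)^k`.  The proportion of the
simultaneously trivial `D` and the proportion of the good `D` in the family tend to `(1/2)^(m + 1)` if
`k = 1`, and to `(3 · 2^m - 1) / (4 · (2^m)^2)` if `k = 2`.

(2) An element of one of the families is good if and only if it is simultaneously trivial.

(3) Let `N` be prime to `14` and to the `M i`.  The primes in a nonempty set `R` of reduced residue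
classes modulo `N` which do not divide the `M i` are regular with the density `#R / (8 φ(N))`, and
balanced.

(4) Let `K` be a subfield of odd degree of the field of the `3^(n + 1)`-th roots of unity.  If all the
prime factors of `D` and the `M i` are `2`, `4`, `5` or `7` modulo `9`, then `K` is allowed.

(5) Distinct inert primes `M i` satisfy `Base`. -/
theorem result :
    (∀ (m : ℕ) (M : Fin m → ℕ), Base M → ∀ (S : Set ℕ) (δ : ℝ), Regular S δ → Balanced S M →
      (∀ k : ℕ, k = 1 ∨ k = 2 → ∃ (c C : ℝ) (X₀ : ℕ), 0 < c ∧ 0 < C ∧ ∀ X : ℕ, X₀ ≤ X →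
        c * (X * Real.log X ^ (δ - 1) * Real.log (Real.log X) ^ k) ≤
          (count (Family S k) X : ℝ) ∧
        (count (Family S k) X : ℝ) ≤
          C * (X * Real.log X ^ (δ - 1) * Real.log (Real.log X) ^ k)) ∧
      (Tendsto (fun X : ℕ => (count (fun D => Family S 1 D ∧ SimultaneouslyTrivial M D) X : ℝ) /
        (count (Family S 1) X : ℝ)) atTop (𝓝 ((1 / 2) ^ (m + 1))) ∧
      Tendsto (fun X : ℕ => (count (fun D => Family S 1 D ∧ Good M D) X : ℝ) /
        (count (Family S 1) X : ℝ)) atTop (𝓝 ((1 / 2) ^ (m + 1)))) ∧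
      Tendsto (fun X : ℕ => (count (fun D => Family S 2 D ∧ SimultaneouslyTrivial M D) X : ℝ) /
        (count (Family S 2) X : ℝ)) atTop (𝓝 ((3 * 2 ^ m - 1) / (4 * (2 ^ m) ^ 2))) ∧
      Tendsto (fun X : ℕ => (count (fun D => Family S 2 D ∧ Good M D) X : ℝ) /
        (count (Family S 2) X : ℝ)) atTop (𝓝 ((3 * 2 ^ m - 1) / (4 * (2 ^ m) ^ 2)))) ∧
    (∀ (m : ℕ) (M : Fin m → ℕ), Base M → ∀ S : Set ℕ, (∀ p ∈ S, ∀ i, ¬ p ∣ M i) →
      ∀ k : ℕ, k = 1 ∨ k = 2 → ∀ D : ℕ, Family S k D → (Good M D ↔ SimultaneouslyTrivial M D)) ∧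
    (∀ (m : ℕ) (M : Fin m → ℕ), Base M → ∀ N : ℕ, N.Coprime 14 → (∀ i, N.Coprime (M i)) →
      ∀ R : Finset ℕ, R.Nonempty → (∀ a ∈ R, a < N ∧ a.Coprime N) →
      Regular {p | p % N ∈ R ∧ ∀ i, ¬ p ∣ M i} (R.card / (8 * N.totient)) ∧
      Balanced {p | p % N ∈ R ∧ ∀ i, ¬ p ∣ M i} M) ∧
    (∀ (m : ℕ) (M : Fin m → ℕ) (D n : ℕ) (K : IntermediateField ℚ ℂ) [NumberField K],
      K ≤ cyclotomic (3 ^ (n + 1)) → Odd (Module.finrank ℚ K) →
      (∀ p : ℕ, p.Prime → (p ∣ D ∨ ∃ i, p ∣ M i) →
        p % 9 = 2 ∨ p % 9 = 4 ∨ p % 9 = 5 ∨ p % 9 = 7) →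
      Allowed M D (3 ^ (n + 1)) K) ∧
    ∀ (m : ℕ) (M : Fin m → ℕ), Function.Injective M → (∀ i, Inert (M i)) → Base M := by
  refine ⟨?_, ?_, ?_, ?_, ?_⟩
  · intro m M hM S δ hS hB
    rw [reg_iff] at hS
    have hB' := (bal_iff S hM).1 hB.2
    refine ⟨fun k hk => ?_, ?_, ?_⟩
    · obtain ⟨c, C, X₀, hc, hC, h⟩ := Pool.Agent.W2helper41.N.sizeN hS k
      refine ⟨c, C, X₀, hc, hC, fun X hX => ?_⟩
      have e1 : count (Family S k) X =
          ((Icc 1 X).filter fun D => FamN (fun p => p ∈ S) k D).card := by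
        rw [count_eq]
        exact cf fun D _ => fam_iff S k D
      rw [e1]
      exact h X hX
    · exact laws hM hB.1 one_pos one_le_two (num_law (fn_one hS (base_ine hM) hB.1 hB'))
    · exact laws hM hB.1 two_pos le_rfl (num_law (fn_two hS (base_ine hM) hB.1 hB'))
  · intro m M hM S hS k hk D hD
    exact good_iff hM hS (by omega) (by omega) hD
  · intro m M hM N hN hNM R hR hRN
    have hN0 : N ≠ 0 := by
      obtain ⟨r, hr⟩ := hR
      have := (hRN r hr).1
      omega
    have hrg : Rg (fun p => p ∈ {p | p % N ∈ R ∧ ∀ i, ¬ p ∣ M i})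
        (R.card / (8 * N.totient)) := by
      refine rg_fin (Pool.Agent.W2helper41.N.rg_class hN hR hRN) (UM M) fun p hp => ?_
      refine and_congr_right fun _ => ?_
      rw [mem_UM]
      constructor
      · rintro h ⟨i, hi⟩
        exact h i (Nat.dvd_of_mem_primeFactors hi)
      · intro h i hi
        exact h ⟨i, Nat.mem_primeFactors.2 ⟨hp, hi, (base_sqf hM i).ne_zero⟩⟩
    refine ⟨(reg_iff _ _).2 hrg, fun p hp => hp.2, ?_⟩
    refine (bal_iff _ hM).2 ?_
    refine bal_class hN0 (base_ine hM) (fun i => (base_sqf hM i).ne_zero) ?_ (base_TM hM) hRN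
      hrg.spl
    intro q hq h
    obtain ⟨i, hi⟩ := mem_UM.1 hq
    have h1 := Nat.dvd_gcd h (Nat.dvd_of_mem_primeFactors hi)
    rw [hNM i] at h1
    exact (Nat.prime_of_mem_primeFactors hi).one_lt.ne' (Nat.dvd_one.1 h1)
  · intro m M D n K _ hK hodd h9
    have hin : ∀ p : ℕ, p.Prime → (p ∣ D ∨ ∃ i, p ∣ M i) → InertIn K p := fun p hp h =>
      Pool.Agent.W2helper41.B.layer_inert n K hK hodd hp (h9 p hp h)
    refine ⟨⟨3, n + 1, Nat.prime_three.prime, by omega, rfl⟩, ?_, hK, hodd,
      Or.inl (dvd_pow_self 3 (by omega)), fun i p hp hpD => Or.inr (hin p hp (Or.inr ⟨i, hpD⟩)),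
      fun p hp hpD => ⟨?_, hin p hp (Or.inl hpD)⟩⟩
    · exact Nat.Coprime.pow_left _ (by norm_num)
    · intro h
      have h4 := (Nat.prime_dvd_prime_iff_eq hp Nat.prime_three).1 (hp.dvd_of_dvd_pow h)
      have h5 := h9 p hp (Or.inl hpD)
      omega
  · intro m M hinj hine
    refine ⟨fun i => ⟨(hine i).1.squarefree, fun p hp hpM => ?_⟩, fun B hB hsq => ?_⟩
    · rw [(Nat.prime_dvd_prime_iff_eq hp (hine i).1).1 hpM]
      exact hine i
    · have hsf : Squarefree (∏ i ∈ B, M i) := by
        rw [← Finset.prod_image (f := fun n : ℕ => n) (g := M) fun a _ b _ h => hinj h]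
        refine Pool.Agent.Y687.squarefree_prod fun q hq => ?_
        obtain ⟨i, -, rfl⟩ := mem_image.1 hq
        exact (hine i).1
      obtain ⟨i, hi⟩ := hB
      obtain ⟨y, hy⟩ := hsq
      have h1 := hsf y ⟨1, by rw [hy, mul_one]⟩
      rw [Nat.isUnit_iff] at h1
      rw [h1, mul_one] at hy
      have h2 : M i ∣ ∏ i ∈ B, M i := dvd_prod_of_mem M hi
      rw [hy, Nat.dvd_one] at h2
      exact (hine i).1.one_lt.ne' h2

end Pool.Agent.Results.MP_ae0bd0_nt.TwistsOverMultiquadraticFields
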